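import Pool.Agent.Y262.EX.Stm
import Pool.Agent.GR.Flow

/-!
Smooth local flows of smooth vector fields.
-/

set_option autoImplicit false

open Set Filter Topology MeasureTheory Metric
open scoped ContDiff

noncomputable section

namespace Pool.Agent.Y797.EX

open Pool.Agent.Y262.EG Pool.Agent.Y262.EX

theorem lfl : StLFl := by
  intro O X hO hX p hp
  obtain ⟨ρ, hρ, hρO⟩ := Metric.isOpen_iff.1 hO p hp
  let χ : ContDiffBump p := ⟨ρ / 4, ρ / 2, by positivity, by linarith⟩
  set Z : Y → Y := fun x => χ x • X x with hZdef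
  have hzero : ∀ y, y ∉ closedBall p (ρ / 2) → Z y = 0 := by
    intro y hy
    have h : χ y = 0 := χ.zero_of_le_dist (by
      simp only [mem_closedBall, not_le] at hy
      exact hy.le)
    simp [hZdef, h]
  have hZ : ContDiff ℝ ∞ Z := by
    rw [contDiff_iff_contDiffAt]
    intro y
    by_cases hy : y ∈ ball p ρ
    · exact χ.contDiffAt.smul (hX.contDiffAt (hO.mem_nhds (hρO hy)))
    · have hy2 : y ∈ (closedBall p (ρ / 2))ᶜ := by
        simp only [mem_compl_iff, mem_closedBall, not_le]
        simp only [mem_ball, not_lt] at hy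
        linarith
      have h : Z =ᶠ[𝓝 y] fun _ => 0 := by
        filter_upwards [isClosed_closedBall.isOpen_compl.mem_nhds hy2] with z hz
        exact hzero z hz
      exact contDiffAt_const.congr_of_eventuallyEq h
  have hZs : HasCompactSupport Z :=
    HasCompactSupport.intro (isCompact_closedBall p (ρ / 2)) fun y hy => hzero y hy
  have hZ1 : ContDiff ℝ 1 Z := hZ.of_le (by exact_mod_cast le_top)
  obtain ⟨K, hK⟩ := hZ1.lipschitzWith_of_hasCompactSupport hZs one_ne_zero
  obtain ⟨M0, hM0⟩ := hZs.exists_bound_of_continuous hZ.continuous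
  have hM : ∀ x, ‖Z x‖ ≤ (Real.toNNReal M0 : NNReal) := fun x =>
    (hM0 x).trans (Real.le_coe_toNNReal M0)
  choose u hu0 hu using fun x => GR.Flow.exists_solution (X := Z) hK hM x
  have hflow : GR.Flow.IsFlowOf Z (fun t x => u x t) := ⟨fun x => hu0 x, fun x t => hu x t⟩
  have hsm : ContDiff ℝ ∞ (fun q : ℝ × Y => u q.2 q.1) := by
    rw [contDiff_infty]
    intro n
    have h1 := GR.Flow.contDiff_flow (X := ⟨Z, hZ.continuous⟩) (m := n + 1) (by omega)
      (hZ.of_le (by exact_mod_cast le_top)) (K := K) hK (g := fun t x => u x t) hflow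
    exact h1.of_le (by exact_mod_cast Nat.le_succ n)
  have hc : ∀ᶠ q in 𝓝 ((0, p) : ℝ × Y), u q.2 q.1 ∈ ball p (ρ / 4) := by
    have h1 : Tendsto (fun q : ℝ × Y => u q.2 q.1) (𝓝 (0, p)) (𝓝 p) := by
      have h2 := hsm.continuous.tendsto ((0, p) : ℝ × Y)
      simpa [hu0] using h2
    exact h1.eventually (ball_mem_nhds p (by positivity))
  obtain ⟨δ, hδ, hδ'⟩ := Metric.eventually_nhds_iff_ball.1 hc
  refine ⟨δ, min δ ρ, fun q => u q.2 q.1, hδ, lt_min hδ hρ,
    (ball_subset_ball (min_le_right _ _)).trans hρO, hsm.contDiffOn, ?_⟩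
  intro t ht y hy
  have hmem : u y t ∈ ball p (ρ / 4) := by
    refine hδ' (t, y) ?_
    rw [mem_ball, Prod.dist_eq]
    refine max_lt ?_ ?_
    · rw [Real.dist_eq, sub_zero, abs_lt]
      exact ⟨ht.1, ht.2⟩
    · exact lt_of_lt_of_le (mem_ball.1 hy) (min_le_left _ _)
  have hone : χ (u y t) = 1 := χ.one_of_mem_closedBall (ball_subset_closedBall hmem)
  refine ⟨hu0 y, hρO (ball_subset_ball (by linarith) hmem), ?_⟩
  have h := hu y t
  have hZu : Z (u y t) = X (u y t) := by simp [hZdef, hone]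
  rw [hZu] at h
  exact h

theorem lFl : StNem → StLFl := fun _ => lfl

end Pool.Agent.Y797.EX
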